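import Pool.Agent.SZT.StmtsC
import Pool.Agent.Helper31_Mean.ClassNum

/-!
# Squad SZT, block C, row REX

Every class contains a reduced ideal.
-/

set_option autoImplicit false

open Polynomial NumberField H58Q

namespace Pool.Agent.SZT.H76

open Pool.Agent.SZT

/-- The ideal of Hermite form `w = c0 a`, `b = c0 b1`. -/
theorem span_mul_MI {K : Type} [Field K] {f : K[X]} {J : Ideal (Q K f)} {w c0 b a b1 A B : K[X]}
    (hH : H31M.Herm J w c0 b) (ha : w = c0 * a) (hb1 : b = c0 * b1) (hA1 : A ∣ a) (hA2 : a ∣ A)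
    (hB : A ∣ b1 + B) :
    Ideal.span {(⟨c0, 0⟩ : Q K f)} * MI f A B = J := by
  obtain ⟨s, hs⟩ := hB
  obtain ⟨l, hl⟩ := hA1
  apply le_antisymm
  · have h1 : ∀ p : K[X], A ∣ p → (⟨c0 * p, 0⟩ : Q K f) ∈ J := by
      intro p hp
      have h2 := (hH.hw (c0 * p)).2 (by rw [ha]; exact mul_dvd_mul_left _ (hA2.trans hp))
      have h3 : algebraMap K[X] (Q K f) (c0 * p) = ⟨c0 * p, 0⟩ := by
        apply QuadraticAlgebra.ext <;> simp
      rwa [h3] at h2
    have hg1 : (⟨c0, 0⟩ : Q K f) * ⟨A, 0⟩ ∈ J := by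
      have h2 : (⟨c0, 0⟩ : Q K f) * ⟨A, 0⟩ = ⟨c0 * A, 0⟩ := by
        apply QuadraticAlgebra.ext <;> simp
      rw [h2]
      exact h1 A dvd_rfl
    have hg2 : (⟨c0, 0⟩ : Q K f) * ⟨-B, 1⟩ ∈ J := by
      have h2 : (⟨c0, 0⟩ : Q K f) * ⟨-B, 1⟩ = ⟨b, c0⟩ - ⟨c0 * (A * s), 0⟩ := by
        apply QuadraticAlgebra.ext
        · simp only [QuadraticAlgebra.re_mul, QuadraticAlgebra.re_sub]
          rw [← hs, hb1]
          ring
        · simp
      rw [h2]
      exact J.sub_mem hH.hb (h1 _ (dvd_mul_right _ _))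
    rw [Ideal.mul_le]
    intro r hr z hz
    obtain ⟨r', rfl⟩ := Ideal.mem_span_singleton'.1 hr
    obtain ⟨p, q, rfl⟩ := Ideal.mem_span_pair.1 hz
    have h3 : r' * (⟨c0, 0⟩ : Q K f) * (p * ⟨A, 0⟩ + q * ⟨-B, 1⟩) =
        (r' * p) * ((⟨c0, 0⟩ : Q K f) * ⟨A, 0⟩) + (r' * q) * ((⟨c0, 0⟩ : Q K f) * ⟨-B, 1⟩) := by
      generalize (⟨c0, 0⟩ : Q K f) = x1
      generalize (⟨A, 0⟩ : Q K f) = x2
      generalize (⟨-B, 1⟩ : Q K f) = x3
      ring
    rw [h3]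
    exact J.add_mem (J.mul_mem_left _ hg1) (J.mul_mem_left _ hg2)
  · intro u hu
    obtain ⟨t, ht⟩ := hH.hc u hu
    have h1 : u - algebraMap K[X] (Q K f) t * ⟨b, c0⟩ = algebraMap K[X] (Q K f) (u.re - t * b) := by
      apply QuadraticAlgebra.ext
      · simp
      · simp [ht]; ring
    have h2 : algebraMap K[X] (Q K f) (u.re - t * b) ∈ J := by
      rw [← h1]
      exact J.sub_mem hu (J.mul_mem_left _ hH.hb)
    obtain ⟨q, hq⟩ := (hH.hw _).1 h2
    have h3 : u = ⟨c0, 0⟩ * (⟨l * q + s * t, 0⟩ * ⟨A, 0⟩ + ⟨t, 0⟩ * ⟨-B, 1⟩) := by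
      apply QuadraticAlgebra.ext
      · simp only [QuadraticAlgebra.re_mul, QuadraticAlgebra.re_add]
        have h4 : u.re = w * q + t * b := by rw [← hq]; ring
        rw [h4, ha, hb1, hl]
        have h5 : b1 = A * s - B := by rw [← hs]; ring
        rw [h5]
        simp
        ring
      · simp [ht]
    rw [h3]
    refine Ideal.mul_mem_mul (Ideal.subset_span rfl) (Ideal.add_mem _ ?_ ?_)
    · exact Ideal.mul_mem_left _ _ (Ideal.subset_span (Set.mem_insert _ _))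
    · exact Ideal.mul_mem_left _ _ (Ideal.subset_span (Set.mem_insert_of_mem _ rfl))

/-- REX. -/
theorem rex : RexStatement := by
  intro K _ f _ _ h2 hsq hdeg c
  have hd : f.natDegree = 2 * 2 + 1 := hdeg
  obtain ⟨J, hJ, hJc, hJg⟩ := exists_reduced hd c
  have hJ0 : J ≠ ⊥ := nonZeroDivisors.ne_zero hJ
  obtain ⟨w, c0, b, hwg, -, -, hH⟩ := H31M.exists_herm hd hJ0 hJg
  have hw0 : w ≠ 0 := by
    obtain ⟨w', hw', hw'J⟩ := exists_poly hd hJ0
    rintro rfl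
    exact hw' (zero_dvd_iff.1 ((hH.hw w').1 hw'J))
  obtain ⟨a, ha⟩ : c0 ∣ w := by
    have h3 := hH.hc (⟨0, 1⟩ * algebraMap K[X] (Q K f) w)
      (J.mul_mem_left _ ((hH.hw w).2 dvd_rfl))
    simpa using h3
  obtain ⟨b1, hb1⟩ : c0 ∣ b := by
    have h3 := hH.hc (⟨0, 1⟩ * ⟨b, c0⟩) (J.mul_mem_left _ hH.hb)
    simpa using h3
  have hc0 : c0 ≠ 0 := by
    rintro rfl
    exact hw0 (by rw [ha, zero_mul])
  have ha0 : a ≠ 0 := by
    rintro rfl
    exact hw0 (by rw [ha, mul_zero])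
  have hl0 : a.leadingCoeff ≠ 0 := leadingCoeff_ne_zero.2 ha0
  have hab : a ∣ b1 ^ 2 - f := by
    have h3 : (⟨b1, -1⟩ : Q K f) * ⟨b, c0⟩ = algebraMap K[X] (Q K f) (c0 * (b1 ^ 2 - f)) := by
      apply QuadraticAlgebra.ext
      · simp only [QuadraticAlgebra.re_mul, QuadraticAlgebra.algebraMap_re]
        rw [hb1]
        ring
      · simp only [QuadraticAlgebra.im_mul, QuadraticAlgebra.algebraMap_im]
        rw [hb1]
        ring
    have h4 := (hH.hw (c0 * (b1 ^ 2 - f))).1 (by rw [← h3]; exact J.mul_mem_left _ hH.hb)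
    rw [ha] at h4
    exact (mul_dvd_mul_iff_left hc0).1 h4
  set A : K[X] := a * C a.leadingCoeff⁻¹ with hA
  have hAm : A.Monic := monic_mul_leadingCoeff_inv ha0
  have haA : a ∣ A := dvd_mul_right _ _
  have hAa : A ∣ a := by
    refine ⟨C a.leadingCoeff, ?_⟩
    rw [hA, mul_assoc, ← C_mul, inv_mul_cancel₀ hl0, C_1, mul_one]
  set B : K[X] := (-b1) %ₘ A with hB
  have hBd : B.degree < A.degree := degree_modByMonic_lt _ hAm
  have hBb : A ∣ b1 + B := by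
    have h3 := modByMonic_add_div (-b1) A
    refine ⟨-((-b1) /ₘ A), ?_⟩
    have h4 : B = -b1 - A * ((-b1) /ₘ A) := by rw [hB, eq_sub_iff_add_eq]; exact h3
    rw [h4]
    ring
  have hdvd : A ∣ B ^ 2 - f := by
    have h3 : B ^ 2 - f = (b1 ^ 2 - f) + (b1 + B) * (B - b1) := by ring
    rw [h3]
    exact dvd_add (hAa.trans hab) (hBb.mul_right _)
  have hmul := span_mul_MI hH ha hb1 hAa haA hBb
  have hMI0 : MI f A B ≠ ⊥ := by
    intro h3
    rw [h3, Ideal.mul_bot] at hmul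
    exact hJ0 hmul.symm
  refine ⟨A, B, mem_nonZeroDivisors_of_ne_zero hMI0, ⟨hAm, hBd, hdvd⟩, ?_, ?_⟩
  · have h3 : A.natDegree = a.natDegree := by
      rw [hA, natDegree_mul_C (inv_ne_zero hl0)]
    have h4 : a.natDegree ≤ w.natDegree := natDegree_le_of_dvd ⟨c0, by rw [ha, mul_comm]⟩ hw0
    omega
  · rw [← hJc, ClassGroup.mk0_eq_mk0_iff]
    refine ⟨⟨c0, 0⟩, 1, ?_, one_ne_zero, ?_⟩
    · intro h3
      exact hc0 (congrArg QuadraticAlgebra.re h3)
    · rw [Ideal.span_singleton_one, Ideal.top_mul]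
      exact hmul

end Pool.Agent.SZT.H76
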